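import Pool.Agent.L5helper98.NG.Defs

set_option autoImplicit false

/-! # The masses are finite integrals (NG-MAS) -/

namespace Pool.Agent.L5helper70.NG

open MeasureTheory Set Filter
open scoped ENNReal
open Pool.Agent.L5helper98.NG

theorem MAS_holds (hZB : St_ZB) : St_MAS := by
  intro d Ω _ P _ X hX β hβ A hA hAc n
  obtain ⟨hZm, C, hC, hZ⟩ := hZB d Ω P X hX β hβ
  have hcont : ∀ o, Continuous fun x => S X n o x := fun o => by
    unfold S
    exact continuous_finsetSum _ fun k _ => hX.cont k o
  have hmeas : ∀ x, Measurable fun o => S X n o x := fun x => by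
    unfold S
    exact Finset.measurable_sum _ fun k _ => hX.meas k x
  have hS : Measurable (Function.uncurry fun (x : Fin d → ℝ) (o : Ω) => S X n o x) :=
    measurable_uncurry_of_continuous_of_measurable hcont hmeas
  have hf : Measurable fun q : Ω × (Fin d → ℝ) =>
      Real.exp (β * S X n q.1 q.2) / Zf P X β n q.2 := by
    have h1 : Measurable fun q : Ω × (Fin d → ℝ) => S X n q.1 q.2 :=
      hS.comp (measurable_snd.prodMk measurable_fst)
    exact (Real.measurable_exp.comp (h1.const_mul β)).div ((hZm n).comp measurable_snd)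
  have hZ0 : ∀ x, 0 ≤ Zf P X β n x := fun x => integral_nonneg fun o => (Real.exp_pos _).le
  have hf0 : ∀ o x, 0 ≤ Real.exp (β * S X n o x) / Zf P X β n x := fun o x =>
    div_nonneg (Real.exp_pos _).le (hZ0 x)
  have hcube : IsCompact (cube d) := isCompact_Icc
  have hvol : volume A ≠ ∞ := ((measure_mono hAc).trans_lt hcube.measure_lt_top).ne
  have hint : ∀ o, IntegrableOn (fun x => Real.exp (β * S X n o x) / Zf P X β n x) A := by
    intro o
    obtain ⟨K, hK⟩ := (hcube.image (Real.continuous_exp.comp ((hcont o).const_mul β))).bddAbove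
    refine Measure.integrableOn_of_bounded (M := K / Real.exp (β ^ 2 * Cv P X n 0 0 / 2 - C)) hvol
      (hf.comp (measurable_const.prodMk measurable_id)).aestronglyMeasurable ?_
    refine (ae_restrict_iff' hA).2 (Eventually.of_forall fun x hx => ?_)
    rw [Real.norm_of_nonneg (hf0 o x)]
    have h1 : Real.exp (β * S X n o x) ≤ K := hK ⟨x, hAc hx, rfl⟩
    have h2 := (hZ n x (hAc hx)).2.1
    exact div_le_div₀ ((Real.exp_pos _).le.trans h1) h1 (Real.exp_pos _) h2
  refine ⟨?_, fun o => integral_nonneg fun x => hf0 o x, hint, ?_⟩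
  · exact (hf.stronglyMeasurable.integral_prod_right (ν := volume.restrict A)).measurable
  · have h1 : ∀ o, ENNReal.ofReal (mass P X β A n o) =
        ∫⁻ x in A, ENNReal.ofReal (Real.exp (β * S X n o x) / Zf P X β n x) := fun o =>
      ofReal_integral_eq_lintegral_ofReal (hint o) (Eventually.of_forall fun x => hf0 o x)
    simp_rw [h1]
    rw [lintegral_lintegral_swap (by
      exact (ENNReal.measurable_ofReal.comp hf).aemeasurable)]
    have h2 : ∀ x ∈ A, ∫⁻ o, ENNReal.ofReal (Real.exp (β * S X n o x) / Zf P X β n x) ∂P = 1 := by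
      intro x hx
      obtain ⟨g1, g2, -⟩ := hZ n x (hAc hx)
      have hpos : 0 < Zf P X β n x := (Real.exp_pos _).trans_le g2
      rw [← ofReal_integral_eq_lintegral_ofReal (g1.div_const _)
        (Eventually.of_forall fun o => hf0 o x), integral_div]
      have e : (∫ o, Real.exp (β * S X n o x) ∂P) = Zf P X β n x := rfl
      rw [e, div_self hpos.ne', ENNReal.ofReal_one]
    rw [setLIntegral_congr_fun hA h2, lintegral_const, one_mul, Measure.restrict_apply_univ]

end Pool.Agent.L5helper70.NG
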